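import Mathlib
import Pool.Agent.Q292.LC.Stm1

/-!
# Project LC, P1: total mass one
-/

set_option autoImplicit false
set_option linter.unusedSectionVars false

namespace Pool.Agent.Q176.LC

open Q292.LC
open Finset Equiv Matrix

variable {V : Type} [Fintype V] [DecidableEq V]

lemma dS_empty (w : ℝ) (P : Matrix V V ℝ) : dS w ∅ P = 1 := by
  unfold dS dg
  simp

lemma inv_pow {g : Perm V} {A : Finset V} (h : Inv g A) {a : V} (ha : a ∈ A) (i : ℕ) :
    (g ^ i) a ∈ A := by
  induction i with
  | zero => simpa using ha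
  | succ i ih =>
    rw [pow_succ', Perm.mul_apply]
    exact h _ ih

lemma same_pow {g : Perm V} {a b : V} (h : g.SameCycle a b) : ∃ i : ℕ, (g ^ i) a = b := by
  obtain ⟨i, -, -, hi⟩ := h.exists_pow_eq''
  exact ⟨i, hi⟩

lemma inv_same {g : Perm V} {A : Finset V} (h : Inv g A) {a b : V} (ha : a ∈ A)
    (hab : g.SameCycle a b) : b ∈ A := by
  obtain ⟨i, rfl⟩ := same_pow hab
  exact inv_pow h ha i

lemma mem_cyc {g : Perm V} {a b : V} : b ∈ cyc g a ↔ g.SameCycle a b := by
  unfold cyc
  simp

lemma self_mem_cyc (g : Perm V) (a : V) : a ∈ cyc g a := mem_cyc.2 (Perm.SameCycle.refl g a)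

lemma inv_cyc (g : Perm V) (a : V) : Inv g (cyc g a) := by
  intro b hb
  rw [mem_cyc] at hb ⊢
  exact Perm.sameCycle_apply_right.2 hb

lemma inv_sdiff {g : Perm V} {A C : Finset V} (hA : Inv g A) (hC : ∀ b, g b ∈ C → b ∈ C) :
    Inv g (A \ C) := by
  intro b hb
  rw [Finset.mem_sdiff] at hb ⊢
  exact ⟨hA b hb.1, fun h => hb.2 (hC b h)⟩

lemma inv_union {g : Perm V} {A C : Finset V} (hA : Inv g A) (hC : Inv g C) :
    Inv g (A ∪ C) := by
  intro b hb
  rw [Finset.mem_union] at hb ⊢
  rcases hb with hb | hb
  · exact Or.inl (hA b hb)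
  · exact Or.inr (hC b hb)

theorem p1 (h4 : S_P4) : S_P1 := by
  intro V _ _ g w X hw0 hw1
  induction hk : (univ \ X).card using Nat.strong_induction_on generalizing X with
  | _ k ih =>
  subst hk
  by_cases hX : univ \ X = ∅
  · have hXu : X = univ := by
      rw [Finset.sdiff_eq_empty_iff_subset] at hX
      exact Finset.univ_subset_iff.1 hX
    subst hXu
    rw [Finset.sum_eq_single ∅]
    · rw [if_pos ⟨by intro a ha; exact absurd ha (Finset.notMem_empty a), by simp⟩]
      simp [dS_empty]
    · intro A _ hA
      rw [if_neg]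
      rintro ⟨-, h⟩
      apply hA
      rw [Finset.disjoint_iff_inter_eq_empty, Finset.inter_univ] at h
      exact h
    · intro h
      exact absurd (Finset.mem_univ _) h
  obtain ⟨a, ha⟩ := Finset.nonempty_iff_ne_empty.2 hX
  have haX : a ∉ X := (Finset.mem_sdiff.1 ha).2
  by_cases hex : ∃ i : ℕ, (g ^ i) a ∈ X
  · obtain ⟨i, hi⟩ := hex
    have hlt : (univ \ insert a X).card < (univ \ X).card := by
      apply Finset.card_lt_card
      rw [Finset.ssubset_iff_of_subset (Finset.sdiff_subset_sdiff le_rfl (Finset.subset_insert a X))]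
      exact ⟨a, ha, by simp⟩
    rw [← ih _ hlt (insert a X) rfl]
    refine Finset.sum_congr rfl fun A _ => ?_
    by_cases hA : Inv g A ∧ Disjoint A X
    · have haA : a ∉ A := fun h =>
        (Finset.disjoint_left.1 hA.2) (inv_pow hA.1 h i) hi
      have hA2 : Inv g A ∧ Disjoint A (insert a X) :=
        ⟨hA.1, by rw [Finset.disjoint_insert_right]; exact ⟨haA, hA.2⟩⟩
      rw [if_pos hA, if_pos hA2]
      congr 1
      rw [(h4 V g g w (univ \ (A ∪ X)) hw0 hw1).2.2.1 a (by simp [haA, haX])
        ⟨i, by simp [hi]⟩]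
      congr 1
      ext b
      simp only [Finset.mem_erase, Finset.mem_sdiff, Finset.mem_univ, true_and, Finset.mem_union,
        Finset.mem_insert]
      tauto
    · rw [if_neg hA, if_neg]
      rintro ⟨h1, h2⟩
      exact hA ⟨h1, (Finset.disjoint_insert_right.1 h2).2⟩
  · push Not at hex
    obtain ⟨C, hC⟩ : ∃ C, C = cyc g a := ⟨_, rfl⟩
    have haC : a ∈ C := by rw [hC]; exact self_mem_cyc g a
    have hCX : Disjoint C X := by
      rw [Finset.disjoint_left, hC]
      intro b hb
      obtain ⟨i, rfl⟩ := same_pow (mem_cyc.1 hb)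
      exact hex i
    have hCinv : Inv g C := by rw [hC]; exact inv_cyc g a
    have hCinv' : ∀ b, g b ∈ C → b ∈ C := by
      intro b hb
      rw [hC, mem_cyc] at hb ⊢
      exact Perm.sameCycle_apply_right.1 hb
    have hCA : ∀ A, Inv g A → a ∈ A → C ⊆ A := by
      intro A hA haA b hb
      rw [hC] at hb
      exact inv_same hA haA (mem_cyc.1 hb)
    have hCA' : ∀ A, Inv g A → a ∉ A → Disjoint A C := by
      intro A hA haA
      rw [Finset.disjoint_right]
      intro b hb hbA
      rw [hC] at hb
      exact haA (inv_same hA hbA (mem_cyc.1 hb).symm)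
    have hlt : (univ \ (X ∪ C)).card < (univ \ X).card := by
      apply Finset.card_lt_card
      rw [Finset.ssubset_iff_of_subset (Finset.sdiff_subset_sdiff le_rfl Finset.subset_union_left)]
      exact ⟨a, ha, by simp [haC]⟩
    rw [← ih _ hlt (X ∪ C) rfl]
    obtain ⟨H, hH⟩ : ∃ H : Finset V → ℝ, H = fun A => if Inv g A ∧ Disjoint A (X ∪ C) then
      w ^ A.card * dS w (univ \ (A ∪ (X ∪ C))) (pm g) else 0 := ⟨_, rfl⟩
    obtain ⟨F, hF⟩ : ∃ F : Finset V → ℝ, F = fun A => if Inv g A ∧ Disjoint A X then
      w ^ A.card * dS w (univ \ (A ∪ X)) (pm g) else 0 := ⟨_, rfl⟩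
    have e1 : ∀ A, (if a ∉ A then F A else 0) = (1 - w ^ C.card) * H A := by
      intro A
      by_cases haA : a ∈ A
      · rw [if_neg (not_not.2 haA), hH]
        show 0 = (1 - w ^ C.card) * if Inv g A ∧ Disjoint A (X ∪ C) then _ else 0
        rw [if_neg, mul_zero]
        rintro ⟨-, h⟩
        exact (Finset.disjoint_left.1 h) haA (Finset.mem_union_right _ haC)
      · rw [if_pos haA, hF, hH]
        show (if Inv g A ∧ Disjoint A X then w ^ A.card * dS w (univ \ (A ∪ X)) (pm g) else 0) =
          (1 - w ^ C.card) * if Inv g A ∧ Disjoint A (X ∪ C) then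
            w ^ A.card * dS w (univ \ (A ∪ (X ∪ C))) (pm g) else 0
        by_cases hA : Inv g A ∧ Disjoint A X
        · have hAC := hCA' A hA.1 haA
          have hA2 : Inv g A ∧ Disjoint A (X ∪ C) :=
            ⟨hA.1, Finset.disjoint_union_right.2 ⟨hA.2, hAC⟩⟩
          rw [if_pos hA, if_pos hA2]
          have hs : C ⊆ univ \ (A ∪ X) := by
            intro b hb
            simp only [Finset.mem_sdiff, Finset.mem_univ, true_and, Finset.mem_union, not_or]
            exact ⟨fun h => (Finset.disjoint_left.1 hAC) h hb,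
              (Finset.disjoint_left.1 hCX) hb⟩
          have h5 := (h4 V g g w (univ \ (A ∪ X)) hw0 hw1).2.2.2 a (by simp [haA, haX])
            (by rw [← hC]; exact hs)
          rw [← hC] at h5
          rw [h5]
          have h6 : (univ \ (A ∪ X)) \ C = univ \ (A ∪ (X ∪ C)) := by
            ext b
            simp only [Finset.mem_sdiff, Finset.mem_univ, true_and, Finset.mem_union]
            tauto
          rw [h6]
          ring
        · rw [if_neg hA, if_neg, mul_zero]
          rintro ⟨h1, h2⟩
          exact hA ⟨h1, (Finset.disjoint_union_right.1 h2).1⟩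
    have e2 : ∑ A, (if a ∈ A then F A else 0) = ∑ A, w ^ C.card * H A := by
      have s1 : ∑ A, (if a ∈ A then F A else 0) =
          ∑ A ∈ univ.filter (fun A : Finset V => a ∈ A ∧ Inv g A ∧ Disjoint A X), F A := by
        rw [Finset.sum_filter]
        refine Finset.sum_congr rfl fun A _ => ?_
        by_cases h1 : a ∈ A
        · by_cases h2 : Inv g A ∧ Disjoint A X
          · rw [if_pos h1, if_pos ⟨h1, h2⟩]
          · rw [if_pos h1, if_neg (fun h => h2 h.2), hF]
            exact if_neg h2
        · rw [if_neg h1, if_neg (fun h => h1 h.1)]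
      have s2 : ∑ A, w ^ C.card * H A =
          ∑ A ∈ univ.filter (fun A : Finset V => Inv g A ∧ Disjoint A (X ∪ C)),
            w ^ C.card * H A := by
        rw [Finset.sum_filter]
        refine Finset.sum_congr rfl fun A _ => ?_
        by_cases h2 : Inv g A ∧ Disjoint A (X ∪ C)
        · rw [if_pos h2]
        · rw [if_neg h2, hH]
          show w ^ C.card * (if Inv g A ∧ Disjoint A (X ∪ C) then _ else 0) = 0
          rw [if_neg h2, mul_zero]
      rw [s1, s2]
      refine Finset.sum_nbij' (fun A => A \ C) (fun A => A ∪ C) ?_ ?_ ?_ ?_ ?_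
      · intro A hA
        simp only [Finset.mem_filter, Finset.mem_univ, true_and] at hA ⊢
        obtain ⟨h1, h2, h3⟩ := hA
        refine ⟨inv_sdiff h2 hCinv', Finset.disjoint_union_right.2 ⟨?_, ?_⟩⟩
        · exact h3.mono_left Finset.sdiff_subset
        · exact Finset.sdiff_disjoint
      · intro A hA
        simp only [Finset.mem_filter, Finset.mem_univ, true_and] at hA ⊢
        obtain ⟨h1, h2⟩ := hA
        exact ⟨Finset.mem_union_right _ haC, inv_union h1 hCinv,
          Finset.disjoint_union_left.2 ⟨(Finset.disjoint_union_right.1 h2).1, hCX⟩⟩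
      · intro A hA
        simp only [Finset.mem_filter, Finset.mem_univ, true_and] at hA
        exact Finset.sdiff_union_of_subset (hCA A hA.2.1 hA.1)
      · intro A hA
        simp only [Finset.mem_filter, Finset.mem_univ, true_and] at hA
        have h3 := (Finset.disjoint_union_right.1 hA.2).2
        show (A ∪ C) \ C = A
        rw [Finset.union_sdiff_right, Finset.sdiff_eq_self_of_disjoint h3]
      · intro A hA
        simp only [Finset.mem_filter, Finset.mem_univ, true_and] at hA
        obtain ⟨h1, h2, h3⟩ := hA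
        have hsub := hCA A h2 h1
        have k1 : Inv g (A \ C) ∧ Disjoint (A \ C) (X ∪ C) :=
          ⟨inv_sdiff h2 hCinv', Finset.disjoint_union_right.2
            ⟨h3.mono_left Finset.sdiff_subset, Finset.sdiff_disjoint⟩⟩
        rw [hF, hH]
        show (if Inv g A ∧ Disjoint A X then w ^ A.card * dS w (univ \ (A ∪ X)) (pm g) else 0) =
          w ^ C.card * if Inv g (A \ C) ∧ Disjoint (A \ C) (X ∪ C) then
            w ^ (A \ C).card * dS w (univ \ ((A \ C) ∪ (X ∪ C))) (pm g) else 0
        rw [if_pos ⟨h2, h3⟩, if_pos k1]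
        have k2 : (A \ C) ∪ (X ∪ C) = A ∪ X := by
          ext b
          simp only [Finset.mem_union, Finset.mem_sdiff]
          constructor
          · rintro (h | h | h)
            · exact Or.inl h.1
            · exact Or.inr h
            · exact Or.inl (hsub h)
          · rintro (h | h)
            · by_cases hb : b ∈ C
              · exact Or.inr (Or.inr hb)
              · exact Or.inl ⟨h, hb⟩
            · exact Or.inr (Or.inl h)
        have k3 : A.card = C.card + (A \ C).card := by
          rw [Finset.card_sdiff_of_subset hsub]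
          have := Finset.card_le_card hsub
          omega
        rw [k2, k3, pow_add]
        ring
    have e3 : ∑ A, F A = ∑ A, (if a ∈ A then F A else 0) + ∑ A, (if a ∉ A then F A else 0) := by
      rw [← Finset.sum_add_distrib]
      refine Finset.sum_congr rfl fun A _ => ?_
      by_cases h1 : a ∈ A
      · rw [if_pos h1, if_neg (not_not.2 h1), add_zero]
      · rw [if_neg h1, if_pos h1, zero_add]
    have e4 : ∑ A, F A = ∑ A, H A := by
      rw [e3, e2, Finset.sum_congr rfl fun A _ => e1 A, ← Finset.sum_add_distrib]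
      exact Finset.sum_congr rfl fun A _ => by ring
    rw [hF, hH] at e4
    exact e4

end Pool.Agent.Q176.LC
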