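import Mathlib
import Pool.Agent.Q292.LC.Stm2

/-!
# Project LC, FIRST: the first violation along a cycle
-/

set_option autoImplicit false
set_option linter.unusedSectionVars false

namespace Pool.Agent.Q176.LC

open Q292.LC
open Finset Equiv Matrix

variable {V : Type} [Fintype V] [DecidableEq V]

lemma cyc_eq (g : Perm V) (x : V) :
    (Finset.range (cyc g x).card).image (fun l => (g ^ l) x) = cyc g x := by
  obtain ⟨p, hp⟩ : ∃ p, p = Function.minimalPeriod g x := ⟨_, rfl⟩
  have hpp : 0 < p := by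
    rw [hp]
    apply Function.minimalPeriod_pos_of_mem_periodicPts
    exact Function.Injective.mem_periodicPts g.injective x
  have h1 : (Finset.range p).image (fun l => (g ^ l) x) = cyc g x := by
    ext y
    simp only [Finset.mem_image, Finset.mem_range]
    constructor
    · rintro ⟨l, -, rfl⟩
      unfold cyc
      rw [Finset.mem_filter]
      exact ⟨Finset.mem_univ _, ⟨(l : ℤ), by rw [zpow_natCast]⟩⟩
    · intro hy
      unfold cyc at hy
      rw [Finset.mem_filter] at hy
      obtain ⟨i, -, -, hi⟩ := hy.2.exists_pow_eq''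
      refine ⟨i % p, Nat.mod_lt _ hpp, ?_⟩
      have h2 := Function.iterate_mod_minimalPeriod_eq (f := g) (x := x) (n := i)
      rw [Perm.iterate_eq_pow, Perm.iterate_eq_pow, ← hp] at h2
      rw [h2, hi]
  have h2 : (cyc g x).card = p := by
    rw [← h1, Finset.card_image_of_injOn, Finset.card_range]
    intro a ha b hb hab
    have h3 := Function.iterate_injOn_Iio_minimalPeriod (f := g) (x := x)
    rw [← hp] at h3
    refine h3 (by simpa using ha) (by simpa using hb) ?_
    simp only [Perm.iterate_eq_pow]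
    exact hab
  rw [h2, h1]

theorem first (hrot : S_ROT) : S_FIRST := by
  intro V _ _ e u K lam B ω A x hu hper hinv hxA hnv hv
  obtain ⟨g, hg⟩ : ∃ g, g = gp e ω (K * u) := ⟨_, rfl⟩
  rw [← hg] at hinv hv ⊢
  obtain ⟨Z, hZ⟩ : ∃ Z : ℕ → Finset V, Z = fun m => A ∪ (Finset.range m).image fun l => (g ^ l) x :=
    ⟨_, rfl⟩
  obtain ⟨P, hP⟩ : ∃ P : ℕ → ℕ → Prop, P = fun m j => ∃ j' < K, ∃ v,
    lam < (((if j' < j then Z (m + 1) else Z m).image (gp e ω (j' * u))) ∩ B v).card := ⟨_, rfl⟩
  have hP0 : ¬ P 0 0 := by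
    rw [hP]
    rintro ⟨j', hj', v, h⟩
    rw [if_neg (Nat.not_lt_zero _)] at h
    apply hnv
    refine ⟨j', hj', v, ?_⟩
    have h1 : Z 0 = A := by rw [hZ]; simp
    rwa [h1] at h
  have hPK : ∀ m, P m K → P (m + 1) 0 := by
    intro m
    rw [hP]
    rintro ⟨j', hj', v, h⟩
    refine ⟨j', hj', v, ?_⟩
    rw [if_neg (Nat.not_lt_zero _)]
    rwa [if_pos hj'] at h
  have hPK' : ∀ m, P (m + 1) 0 → P m K := by
    intro m
    rw [hP]
    rintro ⟨j', hj', v, h⟩
    refine ⟨j', hj', v, ?_⟩
    rw [if_pos hj']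
    rwa [if_neg (Nat.not_lt_zero _)] at h
  obtain ⟨c, hc⟩ : ∃ c, c = (cyc g x).card := ⟨_, rfl⟩
  have hc0 : 0 < c := by
    rw [hc]
    refine Finset.card_pos.2 ⟨x, ?_⟩
    unfold cyc
    rw [Finset.mem_filter]
    exact ⟨Finset.mem_univ _, Perm.SameCycle.refl g x⟩
  have hlast : P (c - 1) K := by
    apply hPK'
    rw [Nat.sub_add_cancel hc0, hP]
    obtain ⟨j', hj', v, h⟩ := hv
    refine ⟨j', hj', v, ?_⟩
    rw [if_neg (Nat.not_lt_zero _)]
    have h1 : Z c = A ∪ cyc g x := by
      rw [hZ]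
      show A ∪ (Finset.range c).image (fun l => (g ^ l) x) = A ∪ cyc g x
      rw [hc, cyc_eq]
    rwa [h1]
  -- the first `m`
  have hexm : ∃ m, P m K := ⟨_, hlast⟩
  classical
  obtain ⟨m, hm⟩ : ∃ m, m = Nat.find hexm := ⟨_, rfl⟩
  have hm1 : P m K := by rw [hm]; exact Nat.find_spec hexm
  have hmc : m < c := by
    have : m ≤ c - 1 := by rw [hm]; exact Nat.find_min' hexm hlast
    omega
  have hm0 : ¬ P m 0 := by
    intro h
    rcases Nat.eq_zero_or_pos m with h0 | h0
    · rw [h0] at h; exact hP0 h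
    · have h1 : P (m - 1) K := hPK' (m - 1) (by rwa [Nat.sub_add_cancel h0])
      have h2 := Nat.find_min' hexm h1
      omega
  -- the first `j`
  have hexj : ∃ j, P m j := ⟨K, hm1⟩
  obtain ⟨j1, hj1⟩ : ∃ j1, j1 = Nat.find hexj := ⟨_, rfl⟩
  have hj1a : P m j1 := by rw [hj1]; exact Nat.find_spec hexj
  have hj1K : j1 ≤ K := by rw [hj1]; exact Nat.find_min' hexj hm1
  have hj1p : 0 < j1 := by
    rcases Nat.eq_zero_or_pos j1 with h0 | h0
    · rw [h0] at hj1a; exact absurd hj1a hm0
    · exact h0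
  obtain ⟨j, hj⟩ : ∃ j, j1 = j + 1 := ⟨j1 - 1, by omega⟩
  have hjn : ¬ P m j := by
    intro h
    have h2 : j1 ≤ j := by rw [hj1]; exact Nat.find_min' hexj h
    omega
  rw [hj] at hj1a
  have hjK : j < K := by omega
  have hviol : ∃ v, lam < ((Z (m + 1)).image (gp e ω (j * u)) ∩ B v).card := by
    rw [hP] at hj1a hjn
    obtain ⟨j', hj', v, h⟩ := hj1a
    by_cases hjj : j' = j
    · subst hjj
      rw [if_pos (Nat.lt_succ_self _)] at h
      exact ⟨v, h⟩
    · exfalso
      apply hjn
      refine ⟨j', hj', v, ?_⟩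
      have h1 : (j' < j) = (j' < j + 1) := by
        apply propext
        omega
      by_cases h2 : j' < j
      · rw [if_pos h2]
        rwa [if_pos (by omega)] at h
      · rw [if_neg h2]
        rwa [if_neg (by omega)] at h
  obtain ⟨v, hv1⟩ := hviol
  obtain ⟨r1, r2, r3⟩ := hrot V e u K j hu hjK.le hper ω
  obtain ⟨ω', hω'⟩ : ∃ ω', ω' = rot (K * u) (j * u) ω := ⟨_, rfl⟩
  obtain ⟨h, hh⟩ : ∃ h, h = gp e ω (j * u) := ⟨_, rfl⟩
  rw [← hω', ← hh, ← hg] at r3
  rw [← hω', ← hh, ← hg] at r2
  rw [← hω', ← hh] at r1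
  have hz : ∀ i : ℕ, (gp e ω' (K * u) ^ i) (h x) = h ((g ^ i) x) := by
    intro i
    rw [r3, conj_pow]
    simp
  have hR : A.image h ∪ (Finset.range m).image (fun i => (gp e ω' (K * u) ^ i) (h x)) =
      (Z m).image h := by
    rw [hZ]
    show _ = (A ∪ (Finset.range m).image fun l => (g ^ l) x).image h
    rw [Finset.image_union, Finset.image_image]
    congr 1
    refine Finset.image_congr fun i _ => ?_
    exact hz i
  refine ⟨j, hjK, v, m, by rwa [← hc], ?_, ?_⟩
  · rw [← hω', ← hh, hR]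
    rintro ⟨j2, hj2, v2, hb⟩
    apply hjn
    rw [hP]
    rcases Nat.lt_or_ge (j + j2) K with hlt | hge
    · refine ⟨j + j2, hlt, v2, ?_⟩
      rw [if_neg (by omega)]
      have h5 := r1 (j2 * u) (by
        rw [← Nat.sub_mul]
        exact Nat.mul_le_mul_right u (by omega))
      have h6 : ((Z m).image h).image (gp e ω' (j2 * u)) = (Z m).image (gp e ω ((j + j2) * u)) := by
        rw [Finset.image_image, add_mul, ← h5]
        rfl
      rwa [h6] at hb
    · obtain ⟨j3, hj3⟩ : ∃ j3, j2 = K - j + j3 := ⟨j2 - (K - j), by omega⟩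
      have hj3j : j3 < j := by omega
      refine ⟨j3, by omega, v2, ?_⟩
      rw [if_pos hj3j]
      have h5 := r2 (j3 * u) (Nat.mul_le_mul_right u hj3j.le)
      have h6 : K * u - j * u + j3 * u = j2 * u := by
        rw [← Nat.sub_mul, ← add_mul, ← hj3]
      rw [h6] at h5
      have h7 : ((Z m).image h).image (gp e ω' (j2 * u)) =
          ((Z m).image g).image (gp e ω (j3 * u)) := by
        rw [Finset.image_image, Finset.image_image]
        have : (gp e ω' (j2 * u) : V → V) ∘ h = (gp e ω (j3 * u) : V → V) ∘ g := by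
          funext y
          exact congrArg (fun q : Perm V => q y) h5
        rw [this]
      rw [h7] at hb
      refine lt_of_lt_of_le hb (Finset.card_le_card ?_)
      refine Finset.inter_subset_inter_right (Finset.image_subset_image ?_)
      rw [hZ]
      intro y hy
      rw [Finset.mem_image] at hy
      obtain ⟨z, hz1, rfl⟩ := hy
      have hz2 : z ∈ A ∪ (Finset.range m).image fun l => (g ^ l) x := hz1
      show g z ∈ A ∪ (Finset.range (m + 1)).image fun l => (g ^ l) x
      rw [Finset.mem_union] at hz2 ⊢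
      rcases hz2 with h8 | h8
      · exact Or.inl (hinv z h8)
      · right
        rw [Finset.mem_image] at h8 ⊢
        obtain ⟨i, hi, rfl⟩ := h8
        refine ⟨i + 1, by rw [Finset.mem_range] at hi ⊢; omega, ?_⟩
        rw [pow_succ', Perm.mul_apply]
  · rw [← hω', ← hh, hR, hz]
    have h5 : insert (h ((g ^ m) x)) ((Z m).image h) = (Z (m + 1)).image h := by
      rw [← Finset.image_insert]
      congr 1
      rw [hZ]
      show insert ((g ^ m) x) (A ∪ (Finset.range m).image fun l => (g ^ l) x) =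
        A ∪ (Finset.range (m + 1)).image fun l => (g ^ l) x
      rw [Finset.range_add_one, Finset.image_insert, Finset.union_insert]
    rw [h5, hh]
    exact hv1

end Pool.Agent.Q176.LC
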